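import Pool.Agent.Lib.MP_3d7a54_an.Weak

namespace Pool.Agent.Results.MP_3d7a54_an.DyadicUnique

open Set Filter Topology

/-- `u` solves the unforced Katz-Pavlovic / Desnyansky-Novikov dyadic Navier-Stokes model
`u_n' + ν λ^(2n) u_n - λ^(β n) u_(n-1)^2 + λ^(β (n+1)) u_n u_(n+1) = 0` for `n ≥ 1`, `u_0 = 0`,
on `[0, T]`, shell by shell, with values in `ℓ²`. -/
structure IsSol (ν lam β T : ℝ) (u : ℝ → lp (fun _ : ℕ => ℝ) 2) : Prop where
  zero : ∀ t ∈ Icc 0 T, u t 0 = 0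
  cont : ∀ n : ℕ, ContinuousOn (fun t => u t n) (Icc 0 T)
  ode : ∀ n : ℕ, 1 ≤ n → ∀ t ∈ Ioo 0 T, HasDerivAt (fun s => u s n)
    (-(ν * lam ^ (2 * n) * u t n) + lam ^ (β * (n : ℝ)) * u t (n - 1) ^ 2 -
      lam ^ (β * ((n : ℝ) + 1)) * u t n * u t (n + 1)) t

/-- the energy inequality from time `0` -/
def IsLerayHopf (ν lam T : ℝ) (u : ℝ → lp (fun _ : ℕ => ℝ) 2) : Prop :=
  ∀ t ∈ Icc 0 T, ∀ N : ℕ, ‖u t‖ ^ 2 +
    2 * ν * ∑ n ∈ Finset.range N, lam ^ (2 * n) * ∫ s in (0 : ℝ)..t, u s n ^ 2 ≤ ‖u 0‖ ^ 2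

/-- no energy inequality: positive viscosity, strong continuity in `ℓ²`, and time averages that
are small at the critical scaling -/
def IsCriticalL1 (ν lam β T : ℝ) (u : ℝ → lp (fun _ : ℕ => ℝ) 2) : Prop :=
  0 < ν ∧ ContinuousOn u (Icc 0 T) ∧
    Tendsto (fun n : ℕ => lam ^ ((β - 2) * (n : ℝ)) * ∫ s in (0 : ℝ)..T, |u s n|) atTop (𝓝 0)

theorem tendsto_sq (f : lp (fun _ : ℕ => ℝ) 2) :
    Tendsto (fun N => ∑ n ∈ Finset.range N, f n ^ 2) atTop (𝓝 (‖f‖ ^ 2)) := by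
  have h := (lp.hasSum_norm (p := 2) (by norm_num) f).tendsto_sum_nat
  simpa using h

theorem sum_sq_le (f : lp (fun _ : ℕ => ℝ) 2) (N : ℕ) :
    ∑ n ∈ Finset.range N, f n ^ 2 ≤ ‖f‖ ^ 2 :=
  ge_of_tendsto (tendsto_sq f) (eventually_atTop.2 ⟨N, fun _ hM =>
    Finset.sum_le_sum_of_subset_of_nonneg (Finset.range_mono hM) fun _ _ _ => sq_nonneg _⟩)

theorem reduce {ν lam β T : ℝ} (hν : 0 ≤ ν) (hlam : 1 < lam) (hβ : 2 ≤ β)
    (hbig : 10 ^ 10 ≤ lam ^ β) (hT : 0 ≤ T) {u : ℝ → lp (fun _ : ℕ => ℝ) 2}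
    (hu : IsSol ν lam β T u) (au : IsLerayHopf ν lam T u ∨ IsCriticalL1 ν lam β T u) :
    DyKP.Sol (Real.sqrt (lam ^ β)) T (fun n => ν * lam ^ (2 * n))
        (fun n t => u (max 0 (min t T)) n) ∧
      DyKP.LH T (fun n => ν * lam ^ (2 * n)) (fun n t => u (max 0 (min t T)) n) (‖u 0‖ ^ 2) := by
  have l0 : 0 < lam := by linarith
  have cl : ∀ t ∈ Icc 0 T, max 0 (min t T) = t := fun t ht => by
    rw [min_eq_left ht.2, max_eq_right ht.1]
  have mem : ∀ t, max 0 (min t T) ∈ Icc 0 T := fun t =>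
    ⟨le_max_left _ _, max_le hT (min_le_right _ _)⟩
  have hL : Real.sqrt (lam ^ β) ^ 2 = lam ^ β := Real.sq_sqrt (by positivity)
  have hk : ∀ n : ℕ, DyKP.kk (Real.sqrt (lam ^ β)) n = lam ^ (β * ((n : ℝ) + 1)) := fun n => by
    unfold DyKP.kk
    rw [hL, ← Real.rpow_mul_natCast l0.le]
    push_cast
    rfl
  have l2 : lam ^ 2 ≤ lam ^ β := by
    rw [← Real.rpow_natCast]
    exact Real.rpow_le_rpow_of_exponent_le hlam.le (by exact_mod_cast hβ)
  have icl : ∀ (F : ℝ → ℝ) (n : ℕ), ∀ t ∈ Icc 0 T,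
      ∫ s in (0 : ℝ)..t, F (u (max 0 (min s T)) n) = ∫ s in (0 : ℝ)..t, F (u s n) :=
    fun F n t ht => intervalIntegral.integral_congr fun r hr => by
      rw [uIcc_of_le ht.1] at hr
      simp only [cl r ⟨hr.1, hr.2.trans ht.2⟩]
  have S : DyKP.Sol (Real.sqrt (lam ^ β)) T (fun n => ν * lam ^ (2 * n))
      (fun n t => u (max 0 (min t T)) n) := by
    refine ⟨Real.le_sqrt_of_sq_le (by linarith), fun n => by positivity,
      fun n => mul_le_mul_of_nonneg_left (pow_le_pow_right₀ hlam.le (by omega)) hν, fun n => ?_,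
      fun n => (hu.cont n).comp_continuous (by fun_prop) mem, fun t => hu.zero _ (mem t),
      fun n t ht => ?_⟩
    · rw [hL, mul_add, pow_add, mul_one, ← mul_assoc, mul_comm]
      exact mul_le_mul_of_nonneg_right l2 (by positivity)
    · have ht' : t ∈ Icc 0 T := ⟨ht.1.le, ht.2.le⟩
      cases n with
      | zero =>
        have e : (fun t => u (max 0 (min t T)) 0) = fun _ => (0 : ℝ) :=
          funext fun t => hu.zero _ (mem t)
        refine HasDerivAt.congr_deriv (f' := 0) (by rw [e]; exact hasDerivAt_const _ _) ?_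
        simp only [hu.zero _ (mem t), DyKP.G]
        ring
      | succ n =>
        have ev : (fun t => u (max 0 (min t T)) (n + 1)) =ᶠ[𝓝 t] fun s => u s (n + 1) := by
          filter_upwards [Ioo_mem_nhds ht.1 ht.2] with r hr
          rw [cl r ⟨hr.1.le, hr.2.le⟩]
        refine ((hu.ode (n + 1) (by omega) t ht).congr_of_eventuallyEq ev).congr_deriv ?_
        simp only [DyKP.G, hk, cl t ht', Nat.add_sub_cancel]
        push_cast
        ring
  refine ⟨S, ?_⟩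
  rcases au with au | ⟨ν0, hc, hlim⟩
  · refine ⟨by simpa only [cl 0 ⟨le_rfl, hT⟩] using tendsto_sq (u 0), fun t ht N => ?_⟩
    have h1 := au t ht N
    have h2 := sum_sq_le (u t) N
    rw [Finset.mul_sum] at h1
    rw [Finset.sum_add_distrib]
    simp only [cl t ht, icl (fun z => z ^ 2) _ t ht, mul_assoc] at h1 ⊢
    linarith
  · refine S.lh_of_weak hT (e := fun t => ‖u t‖ ^ 2) (hc.norm.pow 2)
      (fun t ht => by simpa only [cl t ht] using tendsto_sq (u t)) (fun δ hδ => ?_) fun δ hδ => ?_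
    · have h1 := ((tendsto_rpow_mul_exp_neg_mul_atTop_nhds_zero (β / 2) (ν * δ)
        (by positivity)).comp (tendsto_pow_atTop_atTop_of_one_lt
          (show 1 < lam ^ 2 by nlinarith))).const_mul (lam ^ β)
      rw [mul_zero] at h1
      refine h1.congr fun N => ?_
      have e1 : ((lam ^ 2) ^ N) ^ (β / 2) = lam ^ (β * (N : ℝ)) := by
        rw [← pow_mul, ← Real.rpow_natCast, ← Real.rpow_mul l0.le]
        congr 1
        push_cast
        ring
      simp only [Function.comp_apply, hk, e1]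
      rw [← mul_assoc, ← Real.rpow_add l0, pow_mul]
      congr 2 <;> ring
    · have h1 := ((tendsto_add_atTop_iff_nat 1).2 hlim).eventually
        (gt_mem_nhds (show 0 < ν * δ / lam ^ 2 by positivity))
      filter_upwards [h1] with N hN
      rw [icl (fun z => |z|) _ T ⟨hT, le_rfl⟩, hk]
      rw [lt_div_iff₀ (by positivity)] at hN
      have e1 : lam ^ (β * ((N : ℝ) + 1)) =
          lam ^ (2 * N) * (lam ^ ((β - 2) * ((N + 1 : ℕ) : ℝ)) * lam ^ 2) := by
        rw [← Real.rpow_natCast lam (2 * N), ← Real.rpow_natCast lam 2, ← Real.rpow_add l0,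
          ← Real.rpow_add l0]
        congr 1
        push_cast
        ring
      have h2 := mul_le_mul_of_nonneg_left hN.le (show 0 ≤ lam ^ (2 * N) by positivity)
      rw [e1]
      linarith

theorem result (ν lam β T : ℝ) (hν : 0 ≤ ν) (hlam : 1 < lam) (hβ : 2 ≤ β)
    (hbig : 10 ^ 10 ≤ lam ^ β) (u v : ℝ → lp (fun _ : ℕ => ℝ) 2)
    (hu : IsSol ν lam β T u) (hv : IsSol ν lam β T v)
    (au : IsLerayHopf ν lam T u ∨ IsCriticalL1 ν lam β T u)
    (av : IsLerayHopf ν lam T v ∨ IsCriticalL1 ν lam β T v)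
    (h0 : u 0 = v 0) : ∀ t ∈ Icc 0 T, u t = v t := by
  intro t ht
  have hT : 0 ≤ T := ht.1.trans ht.2
  obtain ⟨s1, l1⟩ := reduce hν hlam hβ hbig hT hu au
  obtain ⟨s2, l2⟩ := reduce hν hlam hβ hbig hT hv av
  rw [← h0] at l2
  ext n
  have := DyKP.unique s1 s2 l1 l2 (fun n => by simp only [min_eq_left hT, max_self, h0]) ht n
  simpa only [min_eq_left ht.2, max_eq_right ht.1] using this

end Pool.Agent.Results.MP_3d7a54_an.DyadicUnique
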