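import Pool.Agent.FS.MHDRange.Final

namespace Pool.Agent.Results.MP_3d7a54_an.MHDRange

open Set

/-- `(a, b)` is a Leray-Hopf solution on `[0, T]` of the unforced dyadic MHD model
`a_j' = -ν λ^(2j) a_j - λ^(θ j) (a_j a_(j+1) + b_j b_(j+1)) + λ^(θ (j-1)) (a_(j-1)^2 + b_(j-1)^2)`,
`b_j' = -μ λ^(2j) b_j + λ^(θ j) (a_j b_(j+1) - b_j a_(j+1))`, `j ≥ 1`, `a_0 = b_0 = 0`:
finite energy at each time and the energy inequality between any two times. -/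
structure IsLH (ν μ lam θ T : ℝ) (a b : ℕ → ℝ → ℝ) : Prop where
  zero : ∀ t ∈ Icc 0 T, a 0 t = 0 ∧ b 0 t = 0
  cont : ∀ j : ℕ, ContinuousOn (a j) (Icc 0 T) ∧ ContinuousOn (b j) (Icc 0 T)
  odeA : ∀ i : ℕ, ∀ t ∈ Ioo 0 T, HasDerivAt (a (i + 1))
    (-(ν * lam ^ (2 * (i + 1)) * a (i + 1) t)
      - lam ^ (θ * ((i : ℝ) + 1)) * (a (i + 1) t * a (i + 2) t + b (i + 1) t * b (i + 2) t)
      + lam ^ (θ * (i : ℝ)) * (a i t ^ 2 + b i t ^ 2)) t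
  odeB : ∀ i : ℕ, ∀ t ∈ Ioo 0 T, HasDerivAt (b (i + 1))
    (-(μ * lam ^ (2 * (i + 1)) * b (i + 1) t)
      + lam ^ (θ * ((i : ℝ) + 1)) * (a (i + 1) t * b (i + 2) t - b (i + 1) t * a (i + 2) t)) t
  finite : ∀ t ∈ Icc 0 T, Summable fun j : ℕ => a j t ^ 2 + b j t ^ 2
  energy : ∀ s t : ℝ, 0 ≤ s → s ≤ t → t ≤ T → ∀ n : ℕ,
    ∑ j ∈ Finset.range n, (a j t ^ 2 + b j t ^ 2) + 2 * ∑ j ∈ Finset.range n,
      lam ^ (2 * j) * ∫ r in s..t, (ν * a j r ^ 2 + μ * b j r ^ 2) ≤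
      ∑' j : ℕ, (a j s ^ 2 + b j s ^ 2)

open Pool.Agent.FS.MHDRange in
theorem isLH {ν μ lam θ T C q s c : ℝ} {a b : ℕ → ℝ → ℝ} (l0 : 0 < lam) (hq0 : 0 < q) (hq : q < 1)
    (h : Phys ν μ (lam ^ 2) (lam ^ θ) T C q s c a b) : IsLH ν μ lam θ T a b := by
  have e1 : ∀ i : ℕ, lam ^ (θ * (i : ℝ)) = (lam ^ θ) ^ i := fun i => Real.rpow_mul_natCast l0.le _ _
  have e2 : ∀ i : ℕ, lam ^ (θ * ((i : ℝ) + 1)) = (lam ^ θ) ^ (i + 1) := fun i => by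
    rw [← e1]; push_cast; rfl
  have fin : ∀ t ∈ Icc 0 T, Summable fun j : ℕ => a j t ^ 2 + b j t ^ 2 := by
    intro t ht
    refine Summable.of_nonneg_of_le (fun j => by positivity) (fun j => ?_)
      ((summable_geometric_of_lt_one (r := q ^ 2) (by positivity) (by nlinarith)).mul_left
        (2 * C ^ 2))
    obtain ⟨h1, h2⟩ := h.bd j t ht
    have y : 0 ≤ (lam ^ 2) ^ j * t := mul_nonneg (by positivity) ht.1
    have u : C * q ^ j / (1 + (lam ^ 2) ^ j * t) ≤ |C * q ^ j| :=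
      (div_le_div_of_nonneg_right (le_abs_self _) (by positivity)).trans
        (div_le_self (abs_nonneg _) (by linarith))
    have v1 := sq_le_sq.2 ((h1.trans u))
    have v2 := sq_le_sq.2 ((h2.trans u))
    have : (C * q ^ j) ^ 2 = C ^ 2 * (q ^ 2) ^ j := by ring
    linarith
  refine ⟨h.z, h.c, fun i t ht => ?_, fun i t ht => ?_, fin, fun s t hs hst ht n => ?_⟩
  · rw [e1, e2, pow_mul]; exact h.da i t ht
  · rw [e2, pow_mul]; exact h.db i t ht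
  · simp only [pow_mul]
    exact (energy (Real.rpow_pos_of_pos l0 θ) h.z h.c h.da h.db h.pos hs hst ht n).trans
      ((fin s ⟨hs, hst.trans ht⟩).sum_le_tsum _ fun j _ => by positivity)

/-- For a range of resistivities, one critical datum has a Leray-Hopf solution with `b = 0` and
Leray-Hopf solutions with `b ≠ 0` arbitrarily small. -/
theorem result (θ lam ν μ T : ℝ) (h2 : 2 < θ) (l1 : 1 < lam) (hν : 0 < ν) (hT : 0 < T)
    (hlo : 2 * ν ≤ μ * lam ^ 2) (hhi : 800 * (μ * lam ^ 2) ≤ ν * lam ^ (4 - 3 / 2 * θ)) :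
    ∃ C : ℝ, ∀ δ : ℝ, 0 < δ → ∃ a b a' b' : ℕ → ℝ → ℝ,
      IsLH ν μ lam θ T a b ∧ IsLH ν μ lam θ T a' b' ∧
      (∀ i : ℕ, a (i + 1) 0 = 80 * (μ * lam ^ 2) * lam ^ ((2 - θ) * (i : ℝ)) ∧
        a' (i + 1) 0 = a (i + 1) 0 ∧ b (i + 1) 0 = 0 ∧ b' (i + 1) 0 = 0) ∧
      (∀ j : ℕ, ∀ t ∈ Icc 0 T, b j t = 0) ∧ (∃ j : ℕ, ∃ t ∈ Icc 0 T, b' j t ≠ 0) ∧
      ∀ j : ℕ, ∀ t ∈ Icc 0 T, |b' j t| ≤ δ * lam ^ ((2 - θ) * (j : ℝ)) ∧
        max (|a j t|) (max (|a' j t|) (|b' j t|)) ≤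
          C * lam ^ ((2 - θ) * (j : ℝ)) / (1 + lam ^ (2 * j) * t) := by
  have l0 : 0 < lam := by linarith
  set q := lam ^ (2 - θ) with hq
  set y := lam ^ (4 - 3 / 2 * θ) with hy
  set κ := μ * lam ^ 2 / ν with hκ
  have q0 : 0 < q := Real.rpow_pos_of_pos l0 _
  have q1 : q < 1 := Real.rpow_lt_one_of_one_lt_of_neg l1 (by linarith)
  have mq : lam ^ θ * q = lam ^ 2 := by
    rw [hq, ← Real.rpow_add l0, ← Real.rpow_natCast]; norm_num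
  have k2 : 2 ≤ κ := by rw [hκ, le_div_iff₀ hν]; exact hlo
  have ky : 800 * κ ≤ y := by
    rw [hκ, ← mul_div_assoc, div_le_iff₀ hν]; linarith
  have e1 : q ^ 2 * lam ^ 2 = lam ^ ((2 - θ) * 2 + 2) := by
    rw [Real.rpow_add l0, hq, ← Real.rpow_mul_natCast l0.le]; norm_num
  have e2 : y ^ 2 = lam ^ ((4 - 3 / 2 * θ) * 2) := by
    rw [hy, ← Real.rpow_mul_natCast l0.le]; norm_num
  have y1 : y ^ 2 ≤ q ^ 2 * lam ^ 2 := by
    rw [e1, e2]; exact Real.rpow_le_rpow_of_exponent_le l1.le (by linarith)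
  have y2 : y ^ 2 ≤ lam ^ 2 := y1.trans (mul_le_of_le_one_left (by positivity) (by nlinarith))
  have y3 : (q ^ 2 * lam ^ 2) ^ 3 = (y ^ 2) ^ 2 * lam ^ 2 := by
    rw [e1, e2, ← Real.rpow_mul_natCast l0.le, ← Real.rpow_mul_natCast l0.le,
      ← Real.rpow_natCast lam 2, ← Real.rpow_add l0]
    congr 1; push_cast; ring
  have y0 : 1600 ≤ y := by linarith
  have y4 : 1600 * y ≤ y ^ 2 := by nlinarith
  have c2 : (800 * κ) ^ 2 ≤ y ^ 2 := by gcongr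
  have c4 : ((800 * κ) ^ 2) ^ 2 ≤ (y ^ 2) ^ 2 := by gcongr
  set η := 80 * κ / (q ^ 2 * lam ^ 2) with hη'
  have η0 : 0 < η := by positivity
  have f1 : 80 * κ * η ≤ 1 / 90 := by
    rw [hη', ← mul_div_assoc, div_le_div_iff₀ (by positivity) (by norm_num)]
    nlinarith [sq_nonneg κ]
  have f2 : 80 * κ * (η ^ 3 * lam ^ 2) ≤ 1 / 4800 := by
    have : 80 * κ * (η ^ 3 * lam ^ 2) = ((800 * κ) ^ 2) ^ 2 / (10000 * (y ^ 2) ^ 2) := by
      rw [hη', div_pow, y3]; field_simp; ring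
    rw [this, div_le_div_iff₀ (by positivity) (by norm_num)]
    linarith [sq_nonneg (y ^ 2)]
  have f3 : 0 ≤ η ^ 3 * lam ^ 2 := by positivity
  let P : Pool.Agent.FS.MHDRange.Par := ⟨ν, lam ^ 2, η, hν, by linarith, η0,
    by linarith [mul_le_mul_of_nonneg_right k2 η0.le],
    by linarith [mul_le_mul_of_nonneg_right k2 f3], κ, 80 * κ, k2, rfl, by linarith, f1, f2⟩
  have hη : P.η * (q ^ 2 * P.L) = P.c := div_mul_cancel₀ _ (by positivity)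
  have eμ : P.κ * P.ν / P.L = μ := by
    change κ * ν / lam ^ 2 = μ
    rw [hκ]; field_simp
  have c0 : 0 < P.c * P.ν / q := div_pos (mul_pos P.c_pos hν) q0
  refine ⟨P.c * P.ν / q * (2 * (1 + P.L ^ 2 / P.ν)), fun δ hδ => ?_⟩
  have s0 : 0 < min (P.η / 4) (δ / (2 * (P.c * P.ν / q))) := lt_min (by positivity) (by positivity)
  obtain ⟨a, b, h⟩ := Pool.Agent.FS.MHDRange.exists_phys P (s := 0) q0 mq hη hT le_rfl
    (by positivity)
  obtain ⟨a', b', h'⟩ := Pool.Agent.FS.MHDRange.exists_phys P q0 mq hη hT s0.le (min_le_left _ _)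
  rw [eμ] at h h'
  have e : ∀ i : ℕ, lam ^ ((2 - θ) * (i : ℝ)) = q ^ i := fun i => Real.rpow_mul_natCast l0.le _ _
  refine ⟨a, b, a', b', isLH l0 q0 q1 h, isLH l0 q0 q1 h', fun i => ⟨?_, ?_, h.ib _, h'.ib _⟩,
    fun j t ht => ?_, h'.b1 s0, fun j t ht => ⟨?_, ?_⟩⟩
  · rw [h.ia, e, pow_succ]
    change 80 * κ * ν / q * _ = _
    rw [hκ]; field_simp
  · rw [h.ia, h'.ia]
  · simpa using h.bs j t ht
  · refine (h'.bs j t ht).trans ?_
    have := (le_div_iff₀ (by positivity)).1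
      (min_le_right (P.η / 4) (δ / (2 * (P.c * P.ν / q))))
    rw [e]
    linarith [mul_le_mul_of_nonneg_right this (pow_pos q0 j).le]
  · rw [e, pow_mul]
    exact max_le (h.bd j t ht).1 (max_le (h'.bd j t ht).1 (h'.bd j t ht).2)

end Pool.Agent.Results.MP_3d7a54_an.MHDRange
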